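import Pool.Agent.HUK.Stmts

set_option autoImplicit false

namespace Pool.Agent.HUK.H27

open Polynomial NumberField Matrix Pool.Agent.MTL Pool.Agent.MTL.H34 Pool.Agent.Helper78_MT
  Pool.Agent.HIK Pool.Agent.HIP Pool.Agent.MTPN Pool.Agent.MTN

theorem idx : IdxStmt := by
  classical
  intro c p hp hc
  have ho : IsOpen ((MulAction.stabilizer GT c : Subgroup GT) : Set GT) :=
    stabilizer_isOpen_of_isIntegral c
  refine ⟨Subgroup.isClosed_of_isOpen _ ho, ?_⟩
  have hinj : Function.Injective (algebraMap ℤ Om) := by
    intro a b hab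
    have : ((a : ℤ) : Om) = ((b : ℤ) : Om) := by simpa using hab
    exact_mod_cast this
  set q : Om[X] := p.map (algebraMap ℤ Om) with hq
  have hq0 : q ≠ 0 := (Polynomial.map_ne_zero_iff hinj).2 hp
  have hsub : MulAction.orbit GT c ⊆ (q.roots.toFinset : Set Om) := by
    rintro x ⟨σ, rfl⟩
    simp only [Finset.mem_coe, Multiset.mem_toFinset]
    rw [Polynomial.mem_roots hq0, Polynomial.IsRoot.def, hq, Polynomial.eval_map_algebraMap]
    have h1 : σ • c = σ c := rfl
    rw [h1]
    have h2 : aeval (σ c) p = σ (aeval c p) := by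
      have h3 : (algebraMap ℤ Om) = ((σ : Om →+* Om)).comp (algebraMap ℤ Om) := by
        exact RingHom.ext fun n => by simp
      have h4 := Polynomial.hom_eval₂ p (algebraMap ℤ Om) (σ : Om →+* Om) c
      rw [← h3] at h4
      exact h4.symm
    rw [h2, hc, map_zero]
  have hfin : (MulAction.orbit GT c).Finite := (Finset.finite_toSet _).subset hsub
  have hidx : (MulAction.stabilizer GT c : Subgroup GT).index = (MulAction.orbit GT c).ncard :=
    MulAction.index_stabilizer GT c
  rw [hidx]
  constructor
  · rw [Ne, Set.ncard_eq_zero hfin]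
    exact (MulAction.nonempty_orbit c).ne_empty
  · calc (MulAction.orbit GT c).ncard ≤ (q.roots.toFinset : Set Om).ncard :=
          Set.ncard_le_ncard hsub (Finset.finite_toSet _)
      _ = q.roots.toFinset.card := Set.ncard_coe_finset _
      _ ≤ Multiset.card q.roots := Multiset.toFinset_card_le _
      _ ≤ q.natDegree := Polynomial.card_roots' q
      _ ≤ p.natDegree := Polynomial.natDegree_map_le

end Pool.Agent.HUK.H27
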